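import Mathlib

set_option autoImplicit false

namespace Pool.Agent.Results.MP_86f508_lc.NotElem
open FirstOrder Language Cardinal

/-- the operation symbols of relation algebras -/
inductive Fn : ℕ → Type
  | add : Fn 2 | mul : Fn 2 | neg : Fn 1 | zero : Fn 0 | one : Fn 0
  | comp : Fn 2 | conv : Fn 1 | id : Fn 0

/-- the language of relation algebras -/
def L : Language := ⟨Fn, fun _ => Empty⟩

section
variable {M : Type} [L.Structure M]

def op0 (f : Fn 0) : M := Structure.funMap (L := L) f ![]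
def op1 (f : Fn 1) (x : M) : M := Structure.funMap (L := L) f ![x]
def op2 (f : Fn 2) (x y : M) : M := Structure.funMap (L := L) f ![x, y]

end

/-- Tarski's axioms for relation algebras -/
structure IsRA (M : Type) [L.Structure M] : Prop where
  add_comm : ∀ x y : M, op2 .add x y = op2 .add y x
  add_assoc : ∀ x y z : M, op2 .add x (op2 .add y z) = op2 .add (op2 .add x y) z
  hunt : ∀ x y : M, op2 .add (op1 .neg (op2 .add (op1 .neg x) y))
    (op1 .neg (op2 .add (op1 .neg x) (op1 .neg y))) = x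
  mul_def : ∀ x y : M, op2 .mul x y = op1 .neg (op2 .add (op1 .neg x) (op1 .neg y))
  one_def : ∀ x : M, op0 .one = op2 .add x (op1 .neg x)
  zero_def : (op0 .zero : M) = op1 .neg (op0 .one)
  comp_assoc : ∀ x y z : M, op2 .comp x (op2 .comp y z) = op2 .comp (op2 .comp x y) z
  add_comp : ∀ x y z : M, op2 .comp (op2 .add x y) z = op2 .add (op2 .comp x z) (op2 .comp y z)
  comp_id : ∀ x : M, op2 .comp x (op0 .id) = x
  conv_conv : ∀ x : M, op1 .conv (op1 .conv x) = x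
  conv_add : ∀ x y : M, op1 .conv (op2 .add x y) = op2 .add (op1 .conv x) (op1 .conv y)
  conv_comp : ∀ x y : M, op1 .conv (op2 .comp x y) = op2 .comp (op1 .conv y) (op1 .conv x)
  cyc : ∀ x y : M, op2 .add (op2 .comp (op1 .conv x) (op1 .neg (op2 .comp x y))) (op1 .neg y) =
    op1 .neg y

/-- the compatible relations of a `G`-set `A` -/
def Rel (G A : Type) [Group G] [MulAction G A] : Type :=
  {R : Set (A × A) // ∀ (g : G) (x y : A), (x, y) ∈ R → (g • x, g • y) ∈ R}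

instance relStr (G A : Type) [Group G] [MulAction G A] : L.Structure (Rel G A) where
  funMap := fun {_} f v => match f, v with
    | .add, v => ⟨(v 0).1 ∪ (v 1).1, fun g x y h => h.imp ((v 0).2 g x y) ((v 1).2 g x y)⟩
    | .mul, v => ⟨(v 0).1 ∩ (v 1).1, fun g x y h => h.imp ((v 0).2 g x y) ((v 1).2 g x y)⟩
    | .neg, v => ⟨(v 0).1ᶜ, fun g x y h k => h (by simpa using (v 0).2 g⁻¹ _ _ k)⟩
    | .zero, _ => ⟨∅, fun _ _ _ h => h⟩
    | .one, _ => ⟨Set.univ, fun _ _ _ h => h⟩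
    | .comp, v => ⟨{p | ∃ z, (p.1, z) ∈ (v 0).1 ∧ (z, p.2) ∈ (v 1).1},
        fun g x y ⟨z, h, k⟩ => ⟨g • z, (v 0).2 g x z h, (v 1).2 g z y k⟩⟩
    | .conv, v => ⟨{p | (p.2, p.1) ∈ (v 0).1}, fun g x y h => (v 0).2 g y x h⟩
    | .id, _ => ⟨{p | p.1 = p.2}, fun g _ _ h => congrArg (g • ·) h⟩
  RelMap := fun r _ => r.elim

/-- the class of algebras isomorphic to `Rel(A)` for a non-empty `G`-set `A` -/
def InK (G : Type) [Group G] (M : Type) [L.Structure M] : Prop :=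
  ∃ (A : Type) (_ : Nonempty A) (_ : MulAction G A), Nonempty (M ≃[L] Rel G A)

lemma isRA (G A : Type) [Group G] [MulAction G A] : IsRA (Rel G A) := by
  have m1 : ∀ (x y : Rel G A) a b, (a, b) ∈ (op2 .add x y).1 ↔ (a, b) ∈ x.1 ∨ (a, b) ∈ y.1 :=
    fun _ _ _ _ => Iff.rfl
  have m2 : ∀ (x y : Rel G A) a b, (a, b) ∈ (op2 .mul x y).1 ↔ (a, b) ∈ x.1 ∧ (a, b) ∈ y.1 :=
    fun _ _ _ _ => Iff.rfl
  have m3 : ∀ (x : Rel G A) a b, (a, b) ∈ (op1 .neg x).1 ↔ ¬ (a, b) ∈ x.1 := fun _ _ _ => Iff.rfl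
  have m4 : ∀ a b, (a, b) ∈ (op0 .zero : Rel G A).1 ↔ False := fun _ _ => Iff.rfl
  have m5 : ∀ a b, (a, b) ∈ (op0 .one : Rel G A).1 ↔ True := fun _ _ => Iff.rfl
  have m6 : ∀ (x y : Rel G A) a b, (a, b) ∈ (op2 .comp x y).1 ↔
    ∃ c, (a, c) ∈ x.1 ∧ (c, b) ∈ y.1 := fun _ _ _ _ => Iff.rfl
  have m7 : ∀ (x : Rel G A) a b, (a, b) ∈ (op1 .conv x).1 ↔ (b, a) ∈ x.1 := fun _ _ _ => Iff.rfl
  have m8 : ∀ a b, (a, b) ∈ (op0 .id : Rel G A).1 ↔ a = b := fun _ _ => Iff.rfl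
  constructor <;> intros <;> refine Subtype.ext (Set.ext fun ⟨a, b⟩ => ?_) <;>
    simp only [m1, m2, m3, m4, m5, m6, m7, m8] <;> clear m1 m2 m3 m4 m5 m6 m7 m8 <;> grind

lemma IsRA.pull {M N : Type} [L.Structure M] [L.Structure N] (f : N ↪[L] M) (h : IsRA M) :
    IsRA N := by
  have e0 : ∀ s, f (op0 s) = op0 s := fun s =>
    (f.map_fun (s : L.Functions 0) _).trans (congrArg _ (Subsingleton.elim _ _))
  have e1 : ∀ s x, f (op1 s x) = op1 s (f x) := fun s x =>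
    (f.map_fun (s : L.Functions 1) _).trans (congrArg _ (funext fun i => by fin_cases i; rfl))
  have e2 : ∀ s x y, f (op2 s x y) = op2 s (f x) (f y) := fun s x y =>
    (f.map_fun (s : L.Functions 2) _).trans (congrArg _ (funext fun i => by fin_cases i <;> rfl))
  constructor <;> intros <;> apply f.injective <;> simp only [e0, e1, e2]
  exacts [h.1 _ _, h.2 _ _ _, h.3 _ _, h.4 _ _, h.5 _, h.6, h.7 _ _ _, h.8 _ _ _, h.9 _, h.10 _,
    h.11 _ _, h.12 _ _, h.13 _ _]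

lemma card_ne (G A : Type) [Group G] [MulAction G A] : #(Rel G A) ≠ ℵ₀ := by
  let Q := Quotient (MulAction.orbitRel G (A × A))
  let φ : Set Q → Rel G A := fun S => ⟨{p | (Quotient.mk _ p : Q) ∈ S}, fun g x y h => by
    have : (Quotient.mk _ (g • x, g • y) : Q) = Quotient.mk _ (x, y) := Quotient.sound ⟨g, rfl⟩
    change (Quotient.mk _ (g • x, g • y) : Q) ∈ S
    rwa [this]⟩
  have hφ : Function.Bijective φ := by
    refine ⟨fun S T h => Set.ext fun q => ?_, fun R => ⟨Quotient.mk _ '' R.1, Subtype.ext ?_⟩⟩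
    · induction q using Quotient.ind with
      | _ p => exact Set.ext_iff.1 (congrArg Subtype.val h) p
    · ext p
      refine ⟨fun ⟨q, hq, e⟩ => ?_, fun h => ⟨p, h, rfl⟩⟩
      obtain ⟨g, hg⟩ := Quotient.exact e.symm
      rw [← show g • q = p from hg]
      exact R.2 g _ _ hq
  rw [← mk_congr (Equiv.ofBijective φ hφ), mk_set]
  intro h
  rcases lt_or_ge #Q ℵ₀ with k | k
  · exact (power_lt_aleph0 natCast_lt_aleph0 k).ne h
  · exact (k.trans_lt (cantor _)).ne' h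

instance : Countable (Σ n, L.Functions n) := by
  refine Function.Injective.countable (f := fun s : Σ n, Fn n => match s with
    | ⟨_, .add⟩ => 0 | ⟨_, .mul⟩ => 1 | ⟨_, .neg⟩ => 2 | ⟨_, .zero⟩ => 3 | ⟨_, .one⟩ => 4
    | ⟨_, .comp⟩ => 5 | ⟨_, .conv⟩ => 6 | ⟨_, .id⟩ => (7 : ℕ)) ?_
  rintro ⟨_, s⟩ ⟨_, t⟩ h
  cases s <;> cases t <;> first | rfl | simp at h

instance : Countable (Σ n, L.Relations n) := ⟨⟨fun s => s.2.elim, fun s => s.2.elim⟩⟩

theorem result (G : Type) [Group G] : ¬ ∃ T : L.Theory,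
    ∀ (M : Type) [L.Structure M], IsRA M → (InK G M ↔ M ⊨ T) := by
  rintro ⟨T, h⟩
  let : MulAction G ℕ := { smul := fun _ x => x, one_smul := fun _ => rfl, mul_smul := fun _ _ _ => rfl }
  have hi : Infinite (Rel G ℕ) := Infinite.of_injective
    (fun n : ℕ => (⟨{(n, n)}, fun _ _ _ h => h⟩ : Rel G ℕ)) fun m n e => by
      simpa using congrArg Subtype.val e
  obtain ⟨N, ⟨f⟩, hN⟩ := exists_elementaryEmbedding_card_eq_of_le L (Rel G ℕ) (ℵ₀ : Cardinal.{0}) le_rfl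
    (by simpa [Language.card] using mk_le_aleph0 (α := L.Symbols)) (by simp)
  obtain ⟨A, -, _, ⟨e⟩⟩ := (h N ((isRA G ℕ).pull f.toEmbedding)).2 ((f.theory_model_iff T).2
    ((h _ (isRA G ℕ)).1 ⟨ℕ, inferInstance, _, ⟨Language.Equiv.refl _ _⟩⟩))
  exact card_ne G A ((mk_congr e.toEquiv).symm.trans hN)

end Pool.Agent.Results.MP_86f508_lc.NotElem
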